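import Mathlib

/-!
# Vanishing sums of roots of unity of prime order
-/

set_option autoImplicit false

open Finset Polynomial

namespace Pool.Agent.Run7.h804.BH

variable {p : ℕ} [Fact p.Prime]

/-- `p` roots of unity of order `p` with the sum zero are all the `p`-th roots of unity. -/
theorem bij_of_sum {ι : Type} [Fintype ι] (hι : Fintype.card ι = p) {w : ℂ}
    (hw : IsPrimitiveRoot w p) (f : ι → ZMod p) (h : ∑ k, w ^ (f k).val = 0) :
    Function.Bijective f := by
  classical
  have hpr : p.Prime := Fact.out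
  set P : ℤ[X] := ∑ k, X ^ (f k).val with hP
  have hev : aeval w P = 0 := by
    rw [hP, map_sum, ← h]
    refine Finset.sum_congr rfl fun k _ => ?_
    rw [map_pow, aeval_X]
  have hcyc : cyclotomic p ℤ = minpoly ℤ w := cyclotomic_eq_minpoly hw hpr.pos
  have hint : IsIntegral ℤ w := hw.isIntegral hpr.pos
  obtain ⟨R, hR⟩ : cyclotomic p ℤ ∣ P := by
    rw [hcyc]
    exact minpoly.isIntegrallyClosed_dvd hint hev
  have hdP : P.natDegree ≤ p - 1 := by
    rw [hP]
    refine natDegree_sum_le_of_forall_le _ _ fun k _ => ?_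
    rw [natDegree_X_pow]
    have := ZMod.val_lt (f k)
    omega
  have hP1 : P.eval 1 = p := by
    rw [hP, eval_finsetSum]
    simp [hι]
  have hR0 : R ≠ 0 := by
    rintro rfl
    rw [mul_zero] at hR
    rw [hR, eval_zero] at hP1
    exact hpr.ne_zero (by exact_mod_cast hP1.symm)
  have hdR : R.natDegree = 0 := by
    have h1 : P.natDegree = (cyclotomic p ℤ).natDegree + R.natDegree := by
      rw [hR, natDegree_mul (cyclotomic_ne_zero p ℤ) hR0]
    rw [natDegree_cyclotomic, Nat.totient_prime hpr] at h1
    omega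
  obtain ⟨r, hr⟩ : ∃ r : ℤ, R = C r := ⟨R.coeff 0, eq_C_of_natDegree_eq_zero hdR⟩
  have hcoef : ∀ j < p, P.coeff j = r := by
    intro j hj
    rw [hR, hr, coeff_mul_C, cyclotomic_prime, finsetSum_coeff,
      Finset.sum_eq_single j]
    · rw [coeff_X_pow, if_pos rfl, one_mul]
    · intro i _ hi
      rw [coeff_X_pow, if_neg (Ne.symm hi)]
    · intro hj'
      exact absurd (Finset.mem_range.2 hj) hj'
  have hr1 : r = 1 := by
    have h1 : P.eval 1 = p * r := by
      rw [hR, hr, eval_mul, eval_C, cyclotomic_prime, eval_finsetSum]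
      simp
    rw [hP1] at h1
    have h2 : ((p : ℤ)) ≠ 0 := by exact_mod_cast hpr.ne_zero
    have h3 : (p : ℤ) * 1 = p * r := by rw [mul_one]; exact h1
    exact (mul_left_cancel₀ h2 h3).symm
  have hcount : ∀ z : ZMod p, (univ.filter fun k => f k = z).card = 1 := by
    intro z
    have h1 := hcoef z.val (ZMod.val_lt z)
    rw [hr1, hP, finsetSum_coeff] at h1
    have h2 : ∀ k, (X ^ (f k).val : ℤ[X]).coeff z.val = if f k = z then 1 else 0 := by
      intro k
      rw [coeff_X_pow]
      by_cases hk : f k = z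
      · rw [if_pos hk, if_pos (by rw [hk])]
      · rw [if_neg hk, if_neg]
        intro h3
        exact hk (ZMod.val_injective p h3.symm)
    rw [Finset.sum_congr rfl fun k _ => h2 k, ← Finset.sum_filter, Finset.sum_const,
      nsmul_eq_mul, mul_one] at h1
    exact_mod_cast h1
  have hsurj : Function.Surjective f := by
    intro z
    have h1 : 0 < (univ.filter fun k => f k = z).card := by rw [hcount z]; norm_num
    obtain ⟨k, hk⟩ := Finset.card_pos.1 h1
    exact ⟨k, (Finset.mem_filter.1 hk).2⟩
  exact (Fintype.bijective_iff_surjective_and_card f).2 ⟨hsurj, by rw [hι, ZMod.card]⟩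

end Pool.Agent.Run7.h804.BH
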