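import Pool.Agent.Run7.h804.BH.Red
import Pool.Agent.Run7.h804.BH.Root

/-!
# Butson matrices of prime order whose matrix of exponents has small rank
-/

set_option autoImplicit false

open Finset

namespace Pool.Agent.Run7.h804.BH

/-- the number `exp (2 π i n / p)` -/
noncomputable def ex (p n : ℕ) : ℂ :=
  Complex.exp (2 * (Real.pi : ℂ) * Complex.I * (n : ℂ) / (p : ℂ))

/-- `H` is equivalent to the Fourier matrix of order `p`: it becomes the matrix
`exp (2 π i j k / p)` after permutations of the rows and of the columns and multiplications of the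
rows and of the columns by `p`-th roots of unity. -/
def IsFourier (p : ℕ) (H : Matrix (Fin p) (Fin p) ℂ) : Prop :=
  ∃ σ τ : Equiv.Perm (Fin p), ∃ a b : Fin p → ℂ,
    (∀ i, a i ^ p = 1) ∧ (∀ j, b j ^ p = 1) ∧
    ∀ i j, H i j = a i * b j * ex p ((σ i).val * (τ j).val)

/-- `L` is the matrix of exponents of `H`: `H i j = exp (2 π i (L i j) / p)` -/
def IsExponent (p : ℕ) (H : Matrix (Fin p) (Fin p) ℂ) (L : Fin p → Fin p → ZMod p) : Prop :=
  ∀ i j, H i j = ex p (L i j).val

variable {p : ℕ} [Fact p.Prime]

omit [Fact p.Prime] in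
theorem ex_pow (n : ℕ) : ex p n = ex p 1 ^ n := by
  unfold ex
  rw [← Complex.exp_nat_mul]
  congr 1
  push_cast
  ring

theorem prim : IsPrimitiveRoot (ex p 1) p := by
  have h := Complex.isPrimitiveRoot_exp p (Fact.out : p.Prime).ne_zero
  have e : ex p 1 = Complex.exp (2 * Real.pi * Complex.I / p) := by
    unfold ex
    congr 1
    push_cast
    ring
  rw [e]
  exact h

theorem ex_mod (n : ℕ) : ex p (n % p) = ex p n := by
  rw [ex_pow, ex_pow n, ← pow_eq_pow_mod n prim.pow_eq_one]

/-- the additive character -/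
noncomputable def ee (z : ZMod p) : ℂ := ex p z.val

theorem ee_add (z z' : ZMod p) : ee (z + z') = ee z * ee z' := by
  unfold ee
  rw [ZMod.val_add, ex_mod, ex_pow, ex_pow z.val, ex_pow z'.val, pow_add]

theorem ee_mul (z z' : ZMod p) : ee (z * z') = ex p (z.val * z'.val) := by
  unfold ee
  rw [ZMod.val_mul, ex_mod]

theorem ee_pow_p (z : ZMod p) : ee z ^ p = 1 := by
  unfold ee
  rw [ex_pow, ← pow_mul, mul_comm, pow_mul, prim.pow_eq_one, one_pow]

theorem ee_star (z : ZMod p) : star (ee z) = ee (-z) := by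
  have h1 : ‖ee z‖ = 1 := Complex.norm_eq_one_of_pow_eq_one (ee_pow_p z) (Fact.out : p.Prime).ne_zero
  have h2 : (ee z)⁻¹ = star (ee z) := Complex.inv_eq_conj h1
  have h3 : ee z * ee (-z) = 1 := by
    rw [← ee_add, add_neg_cancel]
    unfold ee ex
    simp
  rw [← h2]
  exact inv_eq_of_mul_eq_one_right h3

/-- no row difference takes a value twice -/
def Four (L : Fin p → Fin p → ZMod p) : Prop :=
  ∀ i i' k k', i ≠ i' → k ≠ k' → L i k - L i' k ≠ L i k' - L i' k'

theorem four_of_H (H : Matrix (Fin p) (Fin p) ℂ)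
    (hH : H * H.conjTranspose = (p : ℂ) • (1 : Matrix (Fin p) (Fin p) ℂ))
    (L : Fin p → Fin p → ZMod p) (hL : IsExponent p H L) : Four L := by
  intro i i' k k' hi hk hkk
  have h1 : (H * H.conjTranspose) i i' = 0 := by
    rw [hH, Matrix.smul_apply, Matrix.one_apply_ne hi, smul_zero]
  rw [Matrix.mul_apply] at h1
  have h2 : ∑ k, ex p 1 ^ (L i k - L i' k).val = 0 := by
    rw [← h1]
    refine Finset.sum_congr rfl fun k _ => ?_
    rw [Matrix.conjTranspose_apply, hL, hL]
    have e1 := ee_star (L i' k)
    have e2 := ee_add (L i k) (-(L i' k))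
    rw [← e1, ← sub_eq_add_neg] at e2
    rw [← ex_pow]
    exact e2
  exact hk ((bij_of_sum (Fintype.card_fin p) prim (fun k => L i k - L i' k) h2).1 hkk)

theorem fourier_of_rank_one (H : Matrix (Fin p) (Fin p) ℂ) (L : Fin p → Fin p → ZMod p)
    (hL : IsExponent p H L) (h4 : Four L) (α β x y : Fin p → ZMod p)
    (h : ∀ i j, L i j = α i + β j + x i * y j) : IsFourier p H := by
  classical
  have hp1 : 1 < p := (Fact.out : p.Prime).one_lt
  have hne : (⟨0, by omega⟩ : Fin p) ≠ ⟨1, hp1⟩ := by
    intro h
    have := congrArg Fin.val h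
    simp at this
  have hx : Function.Injective x := by
    intro i i' hii
    by_contra hne'
    refine h4 i i' _ _ hne' hne ?_
    rw [h, h, h, h, hii]
    ring
  have hy : Function.Injective y := by
    intro k k' hkk
    by_contra hne'
    refine h4 _ _ k k' hne hne' ?_
    rw [h, h, h, h, hkk]
    ring
  have hσ : Function.Injective (fun i : Fin p => (⟨(x i).val, ZMod.val_lt _⟩ : Fin p)) := by
    intro i i' hii
    exact hx (ZMod.val_injective p (congrArg Fin.val hii))
  have hτ : Function.Injective (fun i : Fin p => (⟨(y i).val, ZMod.val_lt _⟩ : Fin p)) := by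
    intro i i' hii
    exact hy (ZMod.val_injective p (congrArg Fin.val hii))
  refine ⟨Equiv.ofBijective _ (Finite.injective_iff_bijective.1 hσ),
    Equiv.ofBijective _ (Finite.injective_iff_bijective.1 hτ), fun i => ee (α i),
    fun j => ee (β j), fun i => ee_pow_p _, fun j => ee_pow_p _, fun i j => ?_⟩
  have e1 : H i j = ee (L i j) := hL i j
  rw [e1, h, ee_add, ee_add, ee_mul]
  rfl

theorem rank_two (L : Fin p → Fin p → ZMod p) (h4 : Four L) (α β a b c d : Fin p → ZMod p)
    (h : ∀ i j, L i j = α i + β j + (a i * b j + c i * d j)) :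
    ∃ α' β' x y : Fin p → ZMod p, ∀ i j, L i j = α' i + β' j + x i * y j := by
  classical
  have hp1 : 1 < p := (Fact.out : p.Prime).one_lt
  obtain ⟨i0, i1, hi01⟩ : ∃ i0 i1 : Fin p, i0 ≠ i1 :=
    ⟨⟨0, by omega⟩, ⟨1, hp1⟩, by
      intro h
      have := congrArg Fin.val h
      simp at this⟩
  have hQ : ∀ i i' k k', i ≠ i' → k ≠ k' →
      (a i - a i') * (b k - b k') + (c i - c i') * (d k - d k') ≠ 0 := by
    intro i i' k k' hi hk h0
    refine h4 i i' k k' hi hk ?_
    rw [h, h, h, h]
    linear_combination h0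
  set a0 := a i0 - a i1 with ha0
  set c0 := c i0 - c i1 with hc0
  set b0 := b i0 - b i1 with hb0
  set d0 := d i0 - d i1 with hd0
  have hδ : a0 * b0 + c0 * d0 ≠ 0 := hQ i0 i1 i0 i1 hi01 hi01
  set δ := a0 * b0 + c0 * d0 with hδd
  set s : Fin p → ZMod p := fun i => b0 * a i + d0 * c i with hs
  set t : Fin p → ZMod p := fun i => -c0 * a i + a0 * c i with ht
  set s' : Fin p → ZMod p := fun k => a0 * b k + c0 * d k with hs'
  set t' : Fin p → ZMod p := fun k => -d0 * b k + b0 * d k with ht'
  have hid : ∀ i k, δ * (a i * b k + c i * d k) = s i * s' k + t i * t' k := by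
    intro i k
    simp only [hs, ht, hs', ht', hδd]
    ring
  have hsinj : Function.Injective s := by
    intro i i' hii
    by_contra hne
    refine hQ i i' i0 i1 hne hi01 ?_
    have : b0 * a i + d0 * c i = b0 * a i' + d0 * c i' := hii
    linear_combination this
  have hsinj' : Function.Injective s' := by
    intro k k' hkk
    by_contra hne
    refine hQ i0 i1 k k' hi01 hne ?_
    have : a0 * b k + c0 * d k = a0 * b k' + c0 * d k' := hkk
    linear_combination this
  have hcard : Fintype.card (Fin p) = Fintype.card (ZMod p) := by rw [Fintype.card_fin, ZMod.card]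
  let E : Fin p ≃ ZMod p :=
    Equiv.ofBijective s ((Fintype.bijective_iff_injective_and_card s).2 ⟨hsinj, hcard⟩)
  let E' : Fin p ≃ ZMod p :=
    Equiv.ofBijective s' ((Fintype.bijective_iff_injective_and_card s').2 ⟨hsinj', hcard⟩)
  have hE : ∀ i, E i = s i := fun i => rfl
  have hE' : ∀ i, E' i = s' i := fun i => rfl
  have hδi : δ * δ⁻¹ = 1 := mul_inv_cancel₀ hδ
  have hab : ∀ i k, a i * b k + c i * d k = δ⁻¹ * (s i * s' k + t i * t' k) := by
    intro i k
    rw [← hid]
    linear_combination (-(a i * b k + c i * d k)) * hδi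
  rcases two_fun (fun x => t (E.symm x)) (fun y => t' (E'.symm y)) (by
    intro x x' y y' hx hy h0
    have h1 : E.symm x ≠ E.symm x' := fun h => hx (E.symm.injective h)
    have h2 : E'.symm y ≠ E'.symm y' := fun h => hy (E'.symm.injective h)
    refine hQ _ _ _ _ h1 h2 ?_
    have e1 : s (E.symm x) = x := by rw [← hE, E.apply_symm_apply]
    have e2 : s (E.symm x') = x' := by rw [← hE, E.apply_symm_apply]
    have e3 : s' (E'.symm y) = y := by rw [← hE', E'.apply_symm_apply]
    have e4 : s' (E'.symm y') = y' := by rw [← hE', E'.apply_symm_apply]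
    have f1 := hid (E.symm x) (E'.symm y)
    have f2 := hid (E.symm x) (E'.symm y')
    have f3 := hid (E.symm x') (E'.symm y)
    have f4 := hid (E.symm x') (E'.symm y')
    rw [e1, e3] at f1
    rw [e1, e4] at f2
    rw [e2, e3] at f3
    rw [e2, e4] at f4
    have h3 : δ * ((a (E.symm x) - a (E.symm x')) * (b (E'.symm y) - b (E'.symm y')) +
        (c (E.symm x) - c (E.symm x')) * (d (E'.symm y) - d (E'.symm y'))) = 0 := by
      linear_combination h0 + f1 - f2 - f3 + f4
    exact (mul_eq_zero.1 h3).resolve_left hδ) with ⟨A, B, hAB⟩ | ⟨A, B, hAB⟩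
  · have hAB' : ∀ i, t i = A * s i + B := by
      intro i
      have := hAB (E i)
      simp only [E.symm_apply_apply] at this
      exact this
    refine ⟨α, fun k => β k + δ⁻¹ * B * t' k, s, fun k => δ⁻¹ * (s' k + A * t' k), fun i k => ?_⟩
    rw [h, hab, hAB']
    ring
  · have hAB' : ∀ k, t' k = A * s' k + B := by
      intro k
      have := hAB (E' k)
      simp only [E'.symm_apply_apply] at this
      exact this
    refine ⟨fun i => α i + δ⁻¹ * B * t i, β, fun i => δ⁻¹ * (s i + A * t i), s', fun i k => ?_⟩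
    rw [h, hab, hAB']
    ring

theorem many_rows (L : Fin p → Fin p → ZMod p) (h4 : Four L) (S : Finset (Fin p))
    (h2 : 2 ≤ S.card) (hS : p ≤ 2 * S.card + 1) (α β x y : Fin p → ZMod p)
    (h : ∀ i ∈ S, ∀ j, L i j = α i + β j + x i * y j) :
    ∃ α' β' x' y' : Fin p → ZMod p, ∀ i j, L i j = α' i + β' j + x' i * y' j := by
  classical
  have hp1 : 1 < p := (Fact.out : p.Prime).one_lt
  have hne : (⟨0, by omega⟩ : Fin p) ≠ ⟨1, hp1⟩ := by
    intro h
    have := congrArg Fin.val h
    simp at this
  have hcard : Fintype.card (Fin p) = Fintype.card (ZMod p) := by rw [Fintype.card_fin, ZMod.card]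
  obtain ⟨i0, hi0, i1, hi1, hi01⟩ := Finset.one_lt_card.1 (by omega : 1 < S.card)
  have hy : Function.Injective y := by
    intro k k' hkk
    by_contra hne'
    refine h4 i0 i1 k k' hi01 hne' ?_
    rw [h i0 hi0, h i0 hi0, h i1 hi1, h i1 hi1, hkk]
    ring
  have hx : Set.InjOn x (S : Set (Fin p)) := by
    intro i hi i' hi' hii
    by_contra hne'
    refine h4 i i' _ _ hne' hne ?_
    rw [h i hi, h i hi, h i' hi', h i' hi', hii]
    ring
  let E : Fin p ≃ ZMod p :=
    Equiv.ofBijective y ((Fintype.bijective_iff_injective_and_card y).2 ⟨hy, hcard⟩)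
  have hE : ∀ i, E i = y i := fun i => rfl
  have key : ∀ l : Fin p, ∃ A B : ZMod p, ∀ k, L l k - β k = A * y k + B := by
    intro l
    by_cases hl : l ∈ S
    · exact ⟨x l, α l, fun k => by rw [h l hl]; ring⟩
    · obtain ⟨A, B, hAB⟩ := redei (fun z => L l (E.symm z) - β (E.symm z)) (S.image x) (by
        rw [Finset.card_image_of_injOn hx]
        exact hS) (by
        intro c hc
        obtain ⟨i, hi, rfl⟩ := Finset.mem_image.1 hc
        refine Finite.injective_iff_bijective.1 ?_
        intro z z' hzz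
        by_contra hz
        have h1 : E.symm z ≠ E.symm z' := fun h => hz (E.symm.injective h)
        have hli : l ≠ i := fun h => hl (h ▸ hi)
        refine h4 l i _ _ hli h1 ?_
        have e1 : y (E.symm z) = z := by rw [← hE, E.apply_symm_apply]
        have e2 : y (E.symm z') = z' := by rw [← hE, E.apply_symm_apply]
        rw [h i hi, h i hi, e1, e2]
        simp only at hzz
        linear_combination hzz)
      refine ⟨A, B, fun k => ?_⟩
      have := hAB (E k)
      simp only [E.symm_apply_apply] at this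
      exact this
  choose A B hAB using key
  refine ⟨B, β, A, y, fun i k => ?_⟩
  have := hAB i k
  linear_combination this

end Pool.Agent.Run7.h804.BH
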