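import Mathlib

/-!
# Functions over a prime field which determine few directions
-/

set_option autoImplicit false

open Finset Polynomial

namespace Pool.Agent.Run7.h804.BH

variable {p : ℕ} [Fact p.Prime]

theorem sum_pow_bij {ι : Type*} [Fintype ι] (g : ι → ZMod p) (hg : Function.Bijective g) (m : ℕ)
    (hm : m < p - 1) : ∑ k, g k ^ m = 0 := by
  have h := FiniteField.sum_pow_lt_card_sub_one (ZMod p) m (by rw [ZMod.card]; exact hm)
  rw [← h]
  exact hg.sum_comp (fun x => x ^ m)

theorem choose_ne {m i : ℕ} (hm : m < p) (hi : i ≤ m) : (m.choose i : ZMod p) ≠ 0 := by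
  intro h
  rw [ZMod.natCast_eq_zero_iff] at h
  have h2 : p ∣ m.factorial := by
    rw [← Nat.choose_mul_factorial_mul_factorial hi]
    exact (h.mul_right _).mul_right _
  exact absurd ((Fact.out : p.Prime).dvd_factorial.1 h2) (by omega)

theorem mixed (g : ZMod p → ZMod p) (S : Finset (ZMod p))
    (hS : ∀ c ∈ S, Function.Bijective (fun k => g k - c * k)) (i j : ℕ) (hj : 1 ≤ j)
    (hij : i + j ≤ S.card) (hp : i + j < p - 1) : ∑ k, k ^ i * g k ^ j = 0 := by
  classical
  set m := i + j with hm
  set P : (ZMod p)[X] := ∑ r ∈ range m,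
    C ((m.choose r : ZMod p) * (-1) ^ r * ∑ k, k ^ r * g k ^ (m - r)) * X ^ r with hP
  have hdeg : P.degree < (S.card : ℕ) := by
    refine lt_of_lt_of_le (b := ((m : ℕ) : WithBot ℕ)) ?_ (by exact_mod_cast hij)
    rw [hP]
    refine (Polynomial.degree_sum_le _ _).trans_lt ?_
    rw [Finset.sup_lt_iff (WithBot.bot_lt_coe _)]
    intro r hr
    exact (degree_C_mul_X_pow_le r _).trans_lt (by exact_mod_cast Finset.mem_range.1 hr)
  have hroot : ∀ c ∈ S, P.eval c = 0 := by
    intro c hc
    have h1 := sum_pow_bij _ (hS c hc) m hp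
    have h2 : ∀ k : ZMod p, (g k - c * k) ^ m =
        ∑ r ∈ range m, (m.choose r : ZMod p) * (-1) ^ r * (k ^ r * g k ^ (m - r)) * c ^ r +
          (-c) ^ m * k ^ m := by
      intro k
      have e : g k - c * k = (-c * k) + g k := by ring
      rw [e, add_pow, Finset.sum_range_succ]
      congr 1
      · refine Finset.sum_congr rfl fun r _ => ?_
        rw [mul_pow, neg_pow c r]
        ring
      · rw [mul_pow, Nat.sub_self, Nat.choose_self]
        simp
    have h3 : ∑ k : ZMod p, (-c) ^ m * k ^ m = 0 := by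
      rw [← Finset.mul_sum, sum_pow_bij (fun x : ZMod p => x) Function.bijective_id m hp, mul_zero]
    rw [Finset.sum_congr rfl fun k _ => h2 k, Finset.sum_add_distrib, h3, add_zero,
      Finset.sum_comm] at h1
    rw [hP, eval_finsetSum, ← h1]
    refine Finset.sum_congr rfl fun r _ => ?_
    rw [eval_mul, eval_C, eval_pow, eval_X, Finset.mul_sum, Finset.sum_mul]
  have h0 := Polynomial.eq_zero_of_degree_lt_of_eval_finset_eq_zero S hdeg hroot
  have hc : P.coeff i = (m.choose i : ZMod p) * (-1) ^ i * ∑ k, k ^ i * g k ^ (m - i) := by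
    rw [hP, finsetSum_coeff]
    rw [Finset.sum_eq_single i]
    · rw [coeff_C_mul, coeff_X_pow, if_pos rfl, mul_one]
    · intro r _ hr
      rw [coeff_C_mul, coeff_X_pow, if_neg (Ne.symm hr), mul_zero]
    · intro h
      exact absurd (Finset.mem_range.2 (by omega)) h
  rw [h0, coeff_zero] at hc
  have h4 : (m.choose i : ZMod p) ≠ 0 := choose_ne (by omega) (by omega)
  have h5 : ((-1 : ZMod p)) ^ i ≠ 0 := pow_ne_zero _ (neg_ne_zero.2 one_ne_zero)
  have h6 : m - i = j := by omega
  rw [h6] at hc
  exact (mul_eq_zero.1 hc.symm).resolve_left (mul_ne_zero h4 h5)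

theorem sum_eval (Q : (ZMod p)[X]) (hQ : Q.natDegree ≤ p - 1) :
    ∑ k, Q.eval k = - Q.coeff (p - 1) := by
  classical
  have hp1 : 1 < p := (Fact.out : p.Prime).one_lt
  have h1 : ∀ k : ZMod p, Q.eval k = ∑ i ∈ range (p - 1), Q.coeff i * k ^ i +
      Q.coeff (p - 1) * k ^ (p - 1) := by
    intro k
    rw [eval_eq_sum_range' (n := p - 1 + 1) (by omega), Finset.sum_range_succ]
  rw [Finset.sum_congr rfl fun k _ => h1 k, Finset.sum_add_distrib, Finset.sum_comm]
  have h2 : ∑ i ∈ range (p - 1), ∑ k : ZMod p, Q.coeff i * k ^ i = 0 := by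
    refine Finset.sum_eq_zero fun i hi => ?_
    rw [← Finset.mul_sum, sum_pow_bij (fun x : ZMod p => x) Function.bijective_id i
      (Finset.mem_range.1 hi), mul_zero]
  have h3 : ∑ k : ZMod p, k ^ (p - 1) = -1 := by
    have e : ∀ k : ZMod p, k ^ (p - 1) = 1 - if k = 0 then 1 else 0 := by
      intro k
      by_cases hk : k = 0
      · rw [if_pos hk, hk, zero_pow (by omega), sub_self]
      · rw [if_neg hk, ZMod.pow_card_sub_one_eq_one hk, sub_zero]
    rw [Finset.sum_congr rfl fun k _ => e k, Finset.sum_sub_distrib]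
    simp
  rw [h2, ← Finset.mul_sum, h3]
  ring

theorem arith {N t a b : ℕ} (hN : N = a * t + b) (hb : b < t) (ht : 2 ≤ t) (ha : 1 ≤ a)
    (hev : Even N) : 2 * (a + b) ≤ N := by
  obtain ⟨h, hh⟩ := hev
  rcases Nat.lt_or_ge a 2 with h1 | h1
  · have : a = 1 := by omega
    subst this
    omega
  · rcases Nat.lt_or_ge t 3 with h2 | h2
    · have : t = 2 := by omega
      subst this
      omega
    · obtain ⟨a', rfl⟩ := Nat.exists_eq_add_of_le h1
      obtain ⟨t', rfl⟩ := Nat.exists_eq_add_of_le h2
      have : b ≤ t' + 2 := by omega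
      nlinarith [Nat.zero_le (a' * t')]

/-- the theorem of Rédei and Megyesi -/
theorem redei (g : ZMod p → ZMod p) (S : Finset (ZMod p)) (hcard : p ≤ 2 * S.card + 1)
    (hS : ∀ c ∈ S, Function.Bijective (fun k => g k - c * k)) :
    ∃ a b, ∀ k, g k = a * k + b := by
  classical
  have hpr : p.Prime := Fact.out
  set G : (ZMod p)[X] := Lagrange.interpolate univ id g with hG
  have hinj : Set.InjOn (id : ZMod p → ZMod p) (univ : Finset (ZMod p)) := Function.injective_id.injOn
  have hev : ∀ k, G.eval k = g k := fun k =>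
    Lagrange.eval_interpolate_at_node g hinj (Finset.mem_univ k)
  have hdeg : G.degree < ((univ : Finset (ZMod p)).card : ℕ) := Lagrange.degree_interpolate_lt g hinj
  rw [Finset.card_univ, ZMod.card] at hdeg
  by_cases h1 : G.natDegree ≤ 1
  · refine ⟨G.coeff 1, G.coeff 0, fun k => ?_⟩
    rw [← hev k]
    conv_lhs => rw [eq_X_add_C_of_natDegree_le_one h1]
    simp
  · exfalso
    have hG0 : G ≠ 0 := by
      rintro h
      rw [h] at h1
      simp at h1
    have hlt : G.natDegree < p := (natDegree_lt_iff_degree_lt hG0).2 hdeg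
    set t := G.natDegree with ht
    have ht2 : 2 ≤ t := by omega
    have hodd : Even (p - 1) := hpr.even_sub_one (by omega)
    set a := (p - 1) / t with ha
    set b := (p - 1) % t with hb
    have hN : p - 1 = a * t + b := by
      rw [ha, hb, mul_comm]
      exact (Nat.div_add_mod (p - 1) t).symm
    have hbt : b < t := Nat.mod_lt _ (by omega)
    have ha1 : 1 ≤ a := (Nat.one_le_div_iff (by omega)).2 (by omega)
    have har := arith hN hbt ht2 ha1 hodd
    have hQd : (X ^ b * G ^ a).natDegree = p - 1 := by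
      rw [natDegree_mul (pow_ne_zero _ X_ne_zero) (pow_ne_zero _ hG0), natDegree_X_pow,
        natDegree_pow, ← ht, hN]
      ring
    have hs := sum_eval (X ^ b * G ^ a) hQd.le
    have hm := mixed g S hS b a ha1 (by omega) (by omega)
    have he : ∑ k, (X ^ b * G ^ a).eval k = ∑ k, k ^ b * g k ^ a := by
      refine Finset.sum_congr rfl fun k _ => ?_
      rw [eval_mul, eval_pow, eval_pow, eval_X, hev]
    rw [he, hm] at hs
    have hl : (X ^ b * G ^ a).leadingCoeff ≠ 0 :=
      leadingCoeff_ne_zero.2 (mul_ne_zero (pow_ne_zero _ X_ne_zero) (pow_ne_zero _ hG0))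
    rw [leadingCoeff, hQd] at hl
    exact hl (neg_eq_zero.1 hs.symm)

/-- two functions whose sets of directions are orthogonal -/
theorem two_fun (f g : ZMod p → ZMod p)
    (h : ∀ x x' y y', x ≠ x' → y ≠ y' → (x - x') * (y - y') + (f x - f x') * (g y - g y') ≠ 0) :
    (∃ a b, ∀ k, f k = a * k + b) ∨ (∃ a b, ∀ k, g k = a * k + b) := by
  classical
  have hpr : p.Prime := Fact.out
  set A : Finset (ZMod p) := univ.filter fun c => Function.Injective (fun k => f k - c * k) with hA
  set B : Finset (ZMod p) := univ.filter fun c => Function.Injective (fun k => g k - c * k) with hB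
  have key : ∀ c : ZMod p, c ≠ 0 → c ∉ A → -c⁻¹ ∈ B := by
    intro c hc hcA
    rw [hA, Finset.mem_filter, not_and] at hcA
    have h1 := hcA (Finset.mem_univ _)
    rw [Function.Injective] at h1
    push Not at h1
    obtain ⟨x, x', hx, hxx⟩ := h1
    rw [hB, Finset.mem_filter]
    refine ⟨Finset.mem_univ _, fun y y' hy => ?_⟩
    by_contra hyy
    refine h x x' y y' hxx hyy ?_
    have e1 : f x - f x' = c * (x - x') := by
      have : f x - c * x = f x' - c * x' := hx
      linear_combination this
    have e2 : g y - g y' = -c⁻¹ * (y - y') := by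
      have : g y - -c⁻¹ * y = g y' - -c⁻¹ * y' := hy
      linear_combination this
    rw [e1, e2]
    have : c * c⁻¹ = 1 := mul_inv_cancel₀ hc
    linear_combination (-(x - x') * (y - y')) * this
  have hcount : p - 1 ≤ A.card + B.card := by
    have h1 : ((univ.erase (0 : ZMod p)) \ A).card ≤ B.card := by
      refine Finset.card_le_card_of_injOn (fun c => -c⁻¹) ?_ ?_
      · intro c hc
        have hc' := Finset.mem_sdiff.1 (Finset.mem_coe.1 hc)
        exact key c (Finset.ne_of_mem_erase hc'.1) hc'.2
      · intro c _ c' _ hcc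
        exact inv_injective (neg_injective hcc)
    have h2 : (univ.erase (0 : ZMod p)).card = p - 1 := by
      rw [Finset.card_erase_of_mem (Finset.mem_univ _), Finset.card_univ, ZMod.card]
    have h3 := Finset.le_card_sdiff A (univ.erase (0 : ZMod p))
    omega
  have h2p := hpr.two_le
  rcases Nat.lt_or_ge (2 * A.card) (p - 1) with h1 | h1
  · right
    refine redei g B (by omega) fun c hc => ?_
    exact Finite.injective_iff_bijective.1 (Finset.mem_filter.1 hc).2
  · left
    refine redei f A (by omega) fun c hc => ?_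
    exact Finite.injective_iff_bijective.1 (Finset.mem_filter.1 hc).2

end Pool.Agent.Run7.h804.BH
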